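import Mathlib

set_option autoImplicit false

/-!
The median eigenvalues of a graph of average degree at most `d` need not be bounded by
`sqrt (d - 1)`.

Let `R_m` be the rook graph `K_m □ K_m`.  Its smallest eigenvalue is `-2`, with multiplicity
`(m - 1)^2`.  The disjoint union of one `R_4` and two copies of `R_3` has `16 + 9 + 9 = 34`
vertices and `48 + 18 + 18 = 84` edges, and `-2` is an eigenvalue of multiplicity
`9 + 4 + 4 = 17 = 34 / 2`, so the lower median eigenvalue is `-2`; but the average degree is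
`84 / 17 < 5`.
-/

namespace Pool.Agent.Results.MP_17c227_co.RookUnion

open scoped Classical in
/-- The adjacency matrix of a finite simple graph is Hermitian over the reals. -/
theorem adj_herm {n : ℕ} (G : SimpleGraph (Fin n)) : (G.adjMatrix ℝ).IsHermitian := by
  rw [Matrix.IsHermitian, Matrix.conjTranspose_eq_transpose_of_trivial]
  exact G.isSymm_adjMatrix

open scoped Classical in
/-- `lam G k` is the `k`-th largest eigenvalue `λ_k` of the adjacency matrix of `G`, eigenvalues
counted with multiplicity and `k` counted from `1` (junk value `0` if `k` is out of range). -/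
noncomputable def lam {n : ℕ} (G : SimpleGraph (Fin n)) (k : ℕ) : ℝ :=
  if h : k - 1 < Fintype.card (Fin n) then (adj_herm G).eigenvalues₀ ⟨k - 1, h⟩ else 0

/-- row labels of the 34 vertices (labels 0-3: first board, 4-6: second, 7-9: third) -/
def row : Fin 34 → Fin 10 :=
  ![0, 0, 0, 0, 1, 1, 1, 1, 2, 2, 2, 2, 3, 3, 3, 3,
    4, 4, 4, 5, 5, 5, 6, 6, 6, 7, 7, 7, 8, 8, 8, 9, 9, 9]

/-- column labels of the 34 vertices -/
def col : Fin 34 → Fin 10 :=
  ![0, 1, 2, 3, 0, 1, 2, 3, 0, 1, 2, 3, 0, 1, 2, 3,
    4, 5, 6, 4, 5, 6, 4, 5, 6, 7, 8, 9, 7, 8, 9, 7, 8, 9]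

/-- The disjoint union of a 4 × 4 rook graph and two 3 × 3 rook graphs. -/
def G34 : SimpleGraph (Fin 34) where
  Adj i j := i ≠ j ∧ (row i = row j ∨ col i = col j)
  symm := ⟨fun _ _ h => ⟨h.1.symm, h.2.imp Eq.symm Eq.symm⟩⟩
  loopless := ⟨fun _ h => h.1 rfl⟩

instance : DecidableRel G34.Adj := fun i j =>
  inferInstanceAs (Decidable (i ≠ j ∧ (row i = row j ∨ col i = col j)))

/-- the seven column labels that are not the first column of a board -/
def colSel : Fin 7 → Fin 10 := ![1, 2, 3, 5, 6, 8, 9]

/-- left factor of `A + 2`: 10 row indicators and 7 column indicators -/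
def Bm (i : Fin 34) (k : Fin 17) : ℤ :=
  if h : (k : ℕ) < 10 then (if (row i : ℕ) = k then 1 else 0)
  else (if col i = colSel ⟨(k : ℕ) - 10, by omega⟩ then 1 else 0)

/-- the label of the first column of each board, as a function of a row label -/
def firstCol : Fin 10 → Fin 10 := ![0, 0, 0, 0, 4, 4, 4, 7, 7, 7]

/-- right factor of `A + 2` -/
def Cm (k : Fin 17) (j : Fin 34) : ℤ :=
  if h : (k : ℕ) < 10 then
    (if (row j : ℕ) = k then 1 else 0) + (if col j = firstCol ⟨(k : ℕ), h⟩ then 1 else 0)
  else (if col j = colSel ⟨(k : ℕ) - 10, by omega⟩ then 1 else 0)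
    - (if col j = firstCol (colSel ⟨(k : ℕ) - 10, by omega⟩) then 1 else 0)

theorem fact : ∀ i j : Fin 34, (if G34.Adj i j then (1 : ℤ) else 0) + (if i = j then 2 else 0)
    = ∑ k : Fin 17, Bm i k * Cm k j := by
  decide +kernel


open Matrix Unitary in
/-- the rank of `A + c` counts the eigenvalues different from `-c` -/
theorem rank_add {n : Type*} [Fintype n] [DecidableEq n] {A : Matrix n n ℝ} (hA : A.IsHermitian)
    (c : ℝ) : (A + c • (1 : Matrix n n ℝ)).rank = Fintype.card {i // hA.eigenvalues i + c ≠ 0} := by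
  have h1 : A + c • (1 : Matrix n n ℝ) = conjStarAlgAut ℝ _ hA.eigenvectorUnitary
      (diagonal (fun i => hA.eigenvalues i + c)) := by
    have h2 : (diagonal (fun i => hA.eigenvalues i + c) : Matrix n n ℝ)
        = diagonal (RCLike.ofReal ∘ hA.eigenvalues) + c • (1 : Matrix n n ℝ) := by
      ext i j
      by_cases h : i = j
      · subst h; simp
      · simp [h]
    rw [h2, map_add, ← hA.spectral_theorem, map_smul, map_one]
  rw [h1, conjStarAlgAut_apply, ← coe_star]
  simp [-isUnit_iff_ne_zero, -coe_star, rank_diagonal]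

/-- the adjacency matrix of `G34` plus twice the identity has rank at most 17 -/
theorem rank_le (inst : DecidableRel G34.Adj) :
    (G34.adjMatrix ℝ + (2 : ℝ) • (1 : Matrix (Fin 34) (Fin 34) ℝ)).rank ≤ 17 := by
  have h : G34.adjMatrix ℝ + (2 : ℝ) • (1 : Matrix (Fin 34) (Fin 34) ℝ)
      = (Matrix.of fun i k => (Bm i k : ℝ)) * (Matrix.of fun k j => (Cm k j : ℝ)) := by
    ext i j
    have := fact i j
    rw [Matrix.mul_apply]
    simp only [Matrix.of_apply, Matrix.add_apply, Matrix.smul_apply, SimpleGraph.adjMatrix_apply,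
      Matrix.one_apply]
    have h2 := congrArg (Int.cast : ℤ → ℝ) this
    push_cast at h2
    rw [← h2]
    congr 1
    split_ifs <;> simp
  rw [h]
  refine (Matrix.rank_mul_le_left _ _).trans ?_
  refine (Matrix.rank_le_width _).trans ?_
  simp

/-- Pigeonhole: at most 17 of the 34 eigenvalues of `G34` differ from `-2`, so `λ_18 ≤ -2`. -/
theorem lam_le : lam G34 18 ≤ -2 := by
  classical
  have hr := rank_add (adj_herm G34) 2
  have hle : Fintype.card {i // (adj_herm G34).eigenvalues i + 2 ≠ 0} ≤ 17 := by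
    rw [← hr]; exact rank_le _
  by_contra hcon
  push Not at hcon
  have h17 : (18 : ℕ) - 1 < Fintype.card (Fin 34) := by simp
  rw [lam, dif_pos h17] at hcon
  -- all of the first 18 eigenvalues exceed `-2`
  have hall : ∀ k : Fin (Fintype.card (Fin 34)), (k : ℕ) ≤ 17 →
      -2 < (adj_herm G34).eigenvalues₀ k := by
    intro k hk
    refine lt_of_lt_of_le hcon ?_
    exact (adj_herm G34).eigenvalues₀_antitone (by rw [Fin.le_def]; exact hk)
  let e : Fin 34 ≃ Fin (Fintype.card (Fin 34)) :=
    (Fintype.equivOfCardEq (Fintype.card_fin (Fintype.card (Fin 34)))).symm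
  have hev : ∀ i, (adj_herm G34).eigenvalues i = (adj_herm G34).eigenvalues₀ (e i) := fun _ => rfl
  let f : Fin 18 → {i // (adj_herm G34).eigenvalues i + 2 ≠ 0} := fun k =>
    ⟨e.symm ⟨(k : ℕ), by simp; omega⟩, by
      rw [hev, Equiv.apply_symm_apply]
      have := hall ⟨(k : ℕ), by simp; omega⟩ (by simpa using Nat.le_of_lt_succ k.2)
      intro h0
      linarith⟩
  have hf : Function.Injective f := by
    intro a b hab
    have h1 := congrArg Subtype.val hab
    have h2 := e.symm.injective h1
    have h3 := congrArg Fin.val h2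
    exact Fin.ext h3
  have := Fintype.card_le_of_injective f hf
  simp only [Fintype.card_fin] at this
  omega

theorem degree_sum : ∑ v : Fin 34, G34.degree v = 168 := by
  decide +kernel

theorem card_edges : G34.edgeSet.ncard = 84 := by
  have h := G34.sum_degrees_eq_twice_card_edges
  rw [degree_sum] at h
  rw [← SimpleGraph.coe_edgeFinset, Set.ncard_coe_finset]
  omega

/-- For every real `d` with `84/17 ≤ d < 5` it is false that all graphs of average degree at most
`d` have both median eigenvalues `λ_⌊(n+1)/2⌋` and `λ_⌈(n+1)/2⌉` of absolute value at most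
`√(d-1)`.  (Here `(n + 1) / 2` and `(n + 2) / 2` are natural number divisions.) -/
theorem result : ∀ d : ℝ, 84 / 17 ≤ d → d < 5 →
    ¬ ∀ (n : ℕ) (G : SimpleGraph (Fin n)), 1 ≤ n → 2 * (G.edgeSet.ncard : ℝ) / n ≤ d →
      |lam G ((n + 1) / 2)| ≤ Real.sqrt (d - 1) ∧ |lam G ((n + 2) / 2)| ≤ Real.sqrt (d - 1) := by
  intro d hd hd5 h
  obtain ⟨-, h2⟩ := h 34 G34 (by norm_num) (by
    rw [card_edges]
    push_cast
    refine le_trans ?_ hd
    norm_num)
  have h3 : (34 + 2) / 2 = 18 := by norm_num
  rw [h3] at h2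
  have h4 := lam_le
  have h5 : Real.sqrt (d - 1) < 2 := by
    rw [Real.sqrt_lt' (by norm_num)]
    linarith
  have h6 : 2 ≤ |lam G34 18| := by
    rw [abs_of_neg (by linarith)]
    linarith
  linarith

end Pool.Agent.Results.MP_17c227_co.RookUnion
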